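import Pool.Agent.Lib.SmNH.Q.Main

/-!
# HEIGHTS over SMITH-U (MP_48b749_nt), block Q, module Tor: torsion elements, strict Selmer elements,
boundedness

Port of `Lib/SmH/Q/Tor.lean`. The torsion elements `tor z` have `2 ^ i z = 0` (level `i`).
`q_add_tor` : `q (y + tor z) = q y`; `bb_tor`; `bb_prB` : `bb (i+1) y (iota∘b, iota∘w)` for `b` in the
strict Selmer group (`b = dl (iota (w v))` on `D v` for the bad places `v`): only the good places
contribute; `q_eq_zero`, `bb_eq_zero` : the forms vanish on bounded elements at high level;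
`exists_t0` : a uniform bound for the local invariants at the bad places; `fin_tors` : `M[2^n]` is
finite.
-/

set_option autoImplicit false

open Finset

namespace Pool.Agent.SmNH

open Pool.Agent.SmN

variable {G V V1 Pl M : Type*} [Group G] [AddCommGroup V] [DistribMulAction G V]
  [AddCommGroup V1] [Module (ZMod 2) V1] [AddCommGroup M] [DistribMulAction G M]
  {S : Sys G V V1 Pl} {H : HData V M Pl}

section main

variable (h : S.Ok) (hH : HOk S H) {chi : G → ZMod 2} (hchi : S.HomG chi) {i : ℕ}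

include h hH

/-- The terms of the sum which defines `q`. -/
theorem q_term_fin (hchi : S.HomG chi) {y : (G → V) × (Pl → V)} (hy : IsPr S chi i y)
    {rho : G → M} (hr : IsRho S H chi i y.1 rho) :
    {v | rho (S.sg v) - rhoQ H chi i (y.2 v) (S.sg v) ≠ 0}.Finite := by
  refine (((hr.nc hH hchi hy.sel).fin h).union (bt_fin h hH hy hy)).subset fun v hv => ?_
  by_contra hn
  simp only [Set.mem_union, Set.mem_ofPred_eq, not_or, not_not] at hn
  refine hv ?_
  change rho (S.sg v) - bt H.e chi i (S.sg v) (y.2 v) (y.2 v) = 0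
  rw [hn.1, hn.2, sub_zero]

/-- The terms at the places of `S.good` which are missing in the definition of `q`. -/
theorem bt_good {v : Pl} (hv : v ∈ S.good) {Q : V} (hQ : (2 : ℕ) ^ i • dl chi Q (S.sg v) = 0) :
    bt H.e chi i (S.sg v) Q Q = 0 := by
  have hw := hH.weil
  rcases (by decide : ∀ a : ZMod 2, a = 0 ∨ a = 1) (chi (S.sg v)) with h0 | h1
  · exact bt_triv h hw (hH.sgM v) fun X => by rw [tw_of_zero chi h0, h.good_triv v hv]
  · exact bt_neg_one h hw (hH.sgM v) (fun X => by rw [tw_of_one chi h1, h.good_triv v hv]) hQ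

include hchi

/-- The splitting of the cup square of a coboundary. -/
theorem isRho_dl {z z' : V} {r : ℕ} (hz : (2 : ℕ) ^ (i + r) • z = 0) (hr : (2 : ℕ) ^ r • z' = z)
    (hl : ∀ s, (2 : ℕ) ^ i • dl chi z s = 0) :
    IsRho S H chi i (dl chi z) (fun t => H.e (i + r) z (dl chi z' t)) :=
  ⟨(Sys.dl_tf h hchi z').comp _, fun s t => ob_self hH.weil hchi.2 hr hz s t (hl s) (hl t) (hl _)⟩

omit h hH hchi in
theorem lev_dl_of {z : V} (hz : (2 : ℕ) ^ i • z = 0) (s : G) :
    (2 : ℕ) ^ i • dl chi z s = 0 := by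
  rw [← dl_nsmul, hz, dl_zero]

/-- Torsion elements have height zero. -/
theorem q_tor {z : V} (hz : (2 : ℕ) ^ i • z = 0) : q S H chi i (tor S chi z) = 0 := by
  have hw := hH.weil
  have hz0 : (2 : ℕ) ^ (i + 0) • z = 0 := hz
  have hz' : (2 : ℕ) ^ 0 • z = z := by rw [pow_zero, one_smul]
  have hl : ∀ s, (2 : ℕ) ^ i • dl chi z s = 0 := lev_dl_of hz
  rw [q_eq h hH hchi (isPr_tor h hchi hz) (isRho_dl h hH hchi hz0 hz' hl), qs]
  rw [← finsum_zero (M := M) (α := Pl)]
  refine finsum_congr fun v => ?_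
  have e1 : H.e (i + 0) z (dl chi z (S.sg v)) = bt H.e chi i (S.sg v) z z :=
    (bt_eq h hw (hH.sgM v) (hl _) (hl _) hz0 hz').symm
  rw [e1]
  by_cases hv : v ∈ S.good
  · rw [tor_snd_good hv, bt_good h hH hv (hl _), bt_good h hH hv (by rw [dl_zero, smul_zero]),
      sub_zero, map_zero, smul_zero]
  · rw [tor_snd_bad hv, sub_self, map_zero, smul_zero]

/-- The splitting of the polar cocycle of `Psi` and a torsion element. -/
theorem isPol_tor {Psi : G → V} (hP : S.IsSel chi i Psi) {z : V}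
    (hz : (2 : ℕ) ^ i • z = 0) :
    IsPol S H chi i Psi (dl chi z) (fun t => H.e i (z + tw chi t z) (Psi t)) := by
  have hw := hH.weil
  obtain ⟨N, hN, h1⟩ := Sys.act_tf h hchi i
  obtain ⟨N', hN', h2⟩ := hP.tf
  have hl : ∀ s, (2 : ℕ) ^ i • dl chi z s = 0 := lev_dl_of hz
  have hs : ∀ s, (2 : ℕ) ^ i • (z + tw chi s z) = 0 := fun s => lev_add hz (pow_smul_tw chi s hz)
  refine ⟨⟨N ⊓ N', h.inf_mem _ hN _ hN', fun s n hn => ?_⟩, fun s t => ?_⟩
  · beta_reduce
    rw [h1 s n hn.1 z hz, h2 s n hn.2]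
  · beta_reduce
    have l1 := hP.lev s
    have l2 := pow_smul_tw chi s (hP.lev t)
    -- the term at `s * t`
    have e1 : H.e i (z + tw chi (s * t) z) (Psi (s * t)) =
        H.e i (z + tw chi (s * t) z) (Psi s) + H.e i (z + tw chi (s * t) z) (tw chi s (Psi t)) := by
      rw [hP.coc s t, hw.add_right _ _ _ _ (hs _) l1 l2]
    have e2 : s • H.e i (z + tw chi t z) (Psi t) =
        H.e i (tw chi s z + tw chi (s * t) z) (tw chi s (Psi t)) := by
      rw [← hw.tw_equiv chi i s (hs t) (hP.lev t), tw_add, tw_mul hchi.2]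
    have l3 : (2 : ℕ) ^ i • (tw chi s z + tw chi (s * t) z) = 0 := by
      rw [tw_mul hchi.2, ← tw_add]; exact pow_smul_tw chi s (hs t)
    rw [e1, e2]
    have e3 : H.e i (z + tw chi s z) (Psi s) - H.e i (z + tw chi (s * t) z) (Psi s) =
        H.e i (Psi s) (tw chi s (dl chi z t)) := by
      rw [← hw.sub_left (hs s) (hs _) l1, hw.anti l1 (pow_smul_tw chi s (hl t)),
        ← hw.neg_left (pow_smul_tw chi s (hl t)) l1]
      congr 1
      rw [dl, tw_sub, tw_mul hchi.2]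
      abel
    have e4 : H.e i (tw chi s z + tw chi (s * t) z) (tw chi s (Psi t)) -
        H.e i (z + tw chi (s * t) z) (tw chi s (Psi t)) =
        H.e i (dl chi z s) (tw chi s (Psi t)) := by
      rw [← hw.sub_left l3 (hs _) l2]
      congr 1
      rw [dl]
      abel
    rw [← e3, ← e4]
    abel

/-- Torsion elements are orthogonal to everything. -/
theorem bb_tor {y : (G → V) × (Pl → V)} (hy : IsPr S chi i y) {z : V}
    (hz : (2 : ℕ) ^ i • z = 0) : bb S H chi i y (tor S chi z) = 0 := by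
  have hw := hH.weil
  have hl : ∀ s, (2 : ℕ) ^ i • dl chi z s = 0 := lev_dl_of hz
  rw [bb_eq h hH hchi hy (isPr_tor h hchi hz) (isPol_tor h hH hchi hy.sel hz), qs]
  rw [← finsum_zero (M := M) (α := Pl)]
  refine finsum_congr fun v => ?_
  by_cases hv : v ∈ S.good
  · have h0 : (2 : ℕ) ^ i • dl chi (0 : V) (S.sg v) = 0 := by rw [dl_zero, smul_zero]
    rw [tor_snd_good hv, hy.off v hv, bt_zero_left h hw (hH.sgM v) h0, add_zero, sub_zero]
    rcases (by decide : ∀ a : ZMod 2, a = 0 ∨ a = 1) (chi (S.sg v)) with h0 | h1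
    · obtain ⟨Q, hQ⟩ := hy.sel.loc v
      have hz2 : (2 : ℕ) ^ i • (z + tw chi (S.sg v) z) = 0 :=
        lev_add hz (pow_smul_tw chi _ hz)
      rw [hQ _ (h.sg_mem v), Sys.dl_sg_zero h hv h0, hw.zero_right hz2, map_zero, smul_zero]
    · rw [tw_of_one chi h1, h.good_triv v hv, add_neg_cancel, hw.zero_left (hy.sel.lev _),
        map_zero, smul_zero]
  · rw [tor_snd_bad hv, bt_tors h hw (hH.sgM v) hz (hy.lev_sg h v), hy.loc v hv _ (h.sg_mem v),
      sub_self, map_zero, smul_zero]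

/-- `q` does not change if a torsion element is added. -/
theorem q_add_tor {y : (G → V) × (Pl → V)} (hy : IsPr S chi i y) {z : V}
    (hz : (2 : ℕ) ^ i • z = 0) : q S H chi i (y + tor S chi z) = q S H chi i y := by
  rw [q_add, q_tor h hH hchi hz, bb_tor h hH hchi hy hz, add_zero, add_zero]

theorem bb_add_tor_left {x y : (G → V) × (Pl → V)} (hx : IsPr S chi i x) (hy : IsPr S chi i y)
    {z : V} (hz : (2 : ℕ) ^ i • z = 0) :
    bb S H chi i (x + tor S chi z) y = bb S H chi i x y := by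
  rw [bb_add_left h hH hchi hx (isPr_tor h hchi hz) hy, bb_comm (tor S chi z),
    bb_tor h hH hchi hy hz, add_zero]

/-! ### Strict Selmer elements -/

omit h hH hchi in
private theorem jj (a : ZMod 2) : H.j a + H.j a = 0 := by
  rw [← map_add, CharTwo.add_self_eq_zero, map_zero]

omit h hH hchi in
private theorem neg_j (a : ZMod 2) : -H.j a = H.j a := neg_eq_of_add_eq_zero_left (jj a)

/-- 2.5: the pairing with a strict Selmer element. Only the good places contribute. -/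
theorem bb_prB {y : (G → V) × (Pl → V)} (hy : IsPr S chi (i + 1) y) {b : G → V1} {w : Pl → V1}
    (hb : S.IsSel1 chi b) (hbw : ∀ v, v ∉ S.good → S.loc v b = S.cob v (w v))
    (hw0 : ∀ v ∈ S.good, w v = 0) :
    bb S H chi (i + 1) y (prB S b w) =
      H.j (∑ᶠ (v : Pl) (_ : v ∈ S.good),
        (H.deg v : ZMod 2) * S.e (Sys.top S i y.1 (S.sg v)) (b (S.sg v))) := by
  classical
  have hw := hH.weil
  have hb2 : IsPr S chi (i + 1) (prB S b w) := (isPr_prB_iff h hchi).2 ⟨hb, hbw, hw0⟩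
  have hz := Sys.isSel1_top h hy.sel
  have two : ∀ s, (2 : ℕ) • ((2 : ℕ) ^ i • y.1 s) = 0 := fun s => by
    rw [← mul_smul, ← pow_succ', hy.sel.lev]
  -- the values of `e`
  have e1 : ∀ (x : V) (w : V1), (2 : ℕ) ^ (i + 1) • x = 0 →
      H.e (i + 1) x (S.iota w) = H.j (S.e (S.un ((2 : ℕ) ^ i • x)) w) := fun x w hx => by
    rw [hw.red hx (Sys.two_iota S w), ← hw.one, Sys.iota_un h (by
      rw [← mul_smul, ← pow_succ', hx])]
  have e2 : ∀ (x : V) (w : V1), (2 : ℕ) ^ (i + 1) • x = 0 →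
      H.e (i + 1) (S.iota w) x = H.j (S.e (S.un ((2 : ℕ) ^ i • x)) w) := fun x w hx => by
    have h3 : (2 : ℕ) ^ (i + 1) • S.iota w = 0 :=
      pow_smul_of_le (i := 1) (by omega) (by rw [pow_one]; exact Sys.two_iota S w)
    rw [hw.anti h3 hx, e1 x w hx, neg_j]
  have hsig : IsPol S H chi (i + 1) y.1 (prB S b w).1
      (fun t => H.j (S.e (Sys.top S i y.1 t) (b t))) := by
    refine ⟨Sys.TF.comp₂ h hz.1.1 hb.1.1 (fun p q => H.j (S.e p q)), fun s t => ?_⟩
    change H.e (i + 1) (y.1 s) (tw chi s (S.iota (b t))) +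
      H.e (i + 1) (S.iota (b s)) (tw chi s (y.1 t)) = _
    beta_reduce
    rw [Sys.tw_iota h, e1 _ _ (hy.sel.lev s), e2 _ _ (pow_smul_tw chi s (hy.sel.lev t)),
      ← tw_nsmul, Sys.un_tw h chi s (two t), hw.fix, hz.1.2, hb.1.2]
    change H.j (S.e (Sys.top S i y.1 s) (S.ac s (b t))) +
      H.j (S.e (S.ac s (Sys.top S i y.1 t)) (b s)) = _
    simp only [map_add, LinearMap.add_apply, h.e_inv]
    have r1 := neg_j (H := H) (S.e (Sys.top S i y.1 s) (S.ac s (b t)))
    have r2 := neg_j (H := H) (S.e (S.ac s (Sys.top S i y.1 t)) (b s))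
    conv_lhs => rw [← r1, ← r2]
    abel
  rw [bb_eq h hH hchi hy hb2 hsig, qs]
  have hfin : {v | b (S.sg v) ≠ 0}.Finite := Sys.CocG.fin h hb.1
  have hsf : (Function.support fun v => (∑ᶠ (_ : v ∈ S.good),
      (H.deg v : ZMod 2) * S.e (Sys.top S i y.1 (S.sg v)) (b (S.sg v)))).Finite :=
    hfin.subset fun v hv h0 => hv (by
      beta_reduce
      rw [h0, map_zero, mul_zero]
      exact finsum_zero)
  rw [H.j.map_finsum hsf]
  refine finsum_congr fun v => ?_
  by_cases hv : v ∈ S.good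
  · have e3 : bt H.e chi (i + 1) (S.sg v) (y.2 v) ((prB S b w).2 v) +
        bt H.e chi (i + 1) (S.sg v) ((prB S b w).2 v) (y.2 v) = 0 := by
      have e4 : (prB S b w).2 v = 0 := hb2.off v hv
      rw [e4, bt_zero_left h hw (hH.sgM v) (hy.lev_sg h v),
        bt_zero_right h hw (hH.sgM v) (hy.lev_sg h v), add_zero]
    rw [e3, sub_zero, hH.nm_j, ← map_nsmul, nsmul_eq_mul, finsum_eq_if, if_pos hv]
  · have l1 : (2 : ℕ) ^ (i + 1) • S.iota (w v) = 0 :=
      pow_smul_of_le (i := 1) (by omega) (by rw [pow_one]; exact Sys.two_iota S _)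
    have l2 : S.iota (w v) + tw chi (S.sg v) (S.iota (w v)) = S.iota (b (S.sg v)) := by
      have e5 : b (S.sg v) = S.ac (S.sg v) (w v) - w v := congrArg Prod.fst (hbw v hv)
      rw [Sys.tw_iota h, e5, map_sub, sub_eq_add_neg, Sys.neg_iota, add_comm]
    have e3 : bt H.e chi (i + 1) (S.sg v) (y.2 v) ((prB S b w).2 v) +
        bt H.e chi (i + 1) (S.sg v) ((prB S b w).2 v) (y.2 v) =
        H.j (S.e (Sys.top S i y.1 (S.sg v)) (b (S.sg v))) := by
      change bt H.e chi (i + 1) (S.sg v) (y.2 v) (S.iota (w v)) +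
        bt H.e chi (i + 1) (S.sg v) (S.iota (w v)) (y.2 v) = _
      rw [bt_tors h hw (hH.sgM v) l1 (hy.lev_sg h v), l2, ← hy.loc v hv _ (h.sg_mem v),
        e2 _ _ (hy.sel.lev _)]
      rfl
    rw [e3, sub_self, map_zero, smul_zero, finsum_eq_if, if_neg hv, map_zero]

/-- Strict Selmer elements: `q = 0` at level `≥ 2`. -/
theorem q_prB {b : G → V1} {w : Pl → V1}
    (hb : S.IsSel1 chi b) (hbw : ∀ v, v ∉ S.good → S.loc v b = S.cob v (w v))
    (hw0 : ∀ v ∈ S.good, w v = 0) : q S H chi (i + 2) (prB S b w) = 0 := by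
  have hb1 : IsPr S chi (0 + 1) (prB S b w) := (isPr_prB_iff h hchi).2 ⟨hb, hbw, hw0⟩
  have h1 := bb_self h hH hchi hb1
  have h2 := bb_prB (i := 0) h hH hchi hb1 hb hbw hw0
  have h3 : ∀ s, Sys.top S 0 (prB S b w).1 s = b s := fun s => by
    change S.un ((2 : ℕ) ^ 0 • S.iota (b s)) = b s
    rw [pow_zero, one_smul, Sys.un_iota h]
  have h4 : (∑ᶠ (v : Pl) (_ : v ∈ S.good), (H.deg v : ZMod 2) *
      S.e (Sys.top S 0 (prB S b w).1 (S.sg v)) (b (S.sg v))) = 0 := by
    rw [← finsum_zero (M := ZMod 2) (α := Pl)]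
    refine finsum_congr fun v => ?_
    rw [h3, h.e_alt, mul_zero]
    exact finsum_zero
  rw [h4, map_zero, h1] at h2
  have h5 : i + 2 = 0 + 1 + (i + 1) := by omega
  rw [h5, q_lev h hH hchi hb1, pow_succ, mul_smul, h2, smul_zero]

/-! ### Boundedness -/

/-- 2.6. -/
theorem q_eq_zero {k a : ℕ} {y : (G → V) × (Pl → V)} (hy : IsPr S chi k y)
    (ha : (2 : ℕ) ^ a • y = 0) (hi : k + 2 * a ≤ i) : q S H chi i y = 0 := by
  obtain ⟨r, rfl⟩ := Nat.exists_eq_add_of_le hi
  have h1 := q_nsmul h hH hchi hy (2 ^ a)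
  rw [ha, q_zero h hH hchi] at h1
  have h2 : (2 : ℕ) ^ (2 * a + r) = 2 ^ r * (2 ^ a) ^ 2 := by rw [pow_add, mul_comm, pow_mul']
  rw [add_assoc, q_lev h hH hchi hy, h2, mul_smul, ← h1, smul_zero]

theorem bb_eq_zero {k a : ℕ} {x y : (G → V) × (Pl → V)} (hx : IsPr S chi k x)
    (hy : IsPr S chi k y) (ha : (2 : ℕ) ^ a • x = 0) (hi : k + a ≤ i) :
    bb S H chi i x y = 0 := by
  obtain ⟨r, rfl⟩ := Nat.exists_eq_add_of_le hi
  have h1 := bb_nsmul_left h hH hchi hx hy (2 ^ a)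
  rw [ha, bb_zero_left h hH hchi hy] at h1
  rw [add_assoc, bb_lev h hH hchi hx hy, pow_add, mul_comm, mul_smul, ← h1, smul_zero]

theorem bb_eq_zero' {k a : ℕ} {x y : (G → V) × (Pl → V)} (hx : IsPr S chi k x)
    (hy : IsPr S chi k y) (ha : (2 : ℕ) ^ a • y = 0) (hi : k + a ≤ i) :
    bb S H chi i x y = 0 := by
  rw [bb_comm]; exact bb_eq_zero h hH hchi hy hx ha hi

omit hchi in
/-- Linear combinations of values of polar forms, for different twists and levels. -/
theorem bb_comb {ι : Type*} (A : Finset ι) (n : ι → ℤ) {ch : ι → G → ZMod 2} {l : ι → ℕ}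
    {x y : ι → (G → V) × (Pl → V)} (hch : ∀ k ∈ A, S.HomG (ch k))
    (hx : ∀ k ∈ A, IsPr S (ch k) (l k) (x k))
    (hy : ∀ k ∈ A, IsPr S (ch k) (l k) (y k)) {g : G → M} (hg : S.TF g)
    (hd : ∀ a b, ∑ k ∈ A, n k • (H.e (l k) ((x k).1 a) (tw (ch k) a ((y k).1 b)) +
      H.e (l k) ((y k).1 a) (tw (ch k) a ((x k).1 b))) = g a + a • g b - g (a * b)) :
    ∑ k ∈ A, n k • bb S H (ch k) (l k) (x k) (y k) =
      ∑ᶠ v, H.deg v • H.nm v (g (S.sg v) -
        ∑ k ∈ A, n k • (bt H.e (ch k) (l k) (S.sg v) ((x k).2 v) ((y k).2 v) +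
          bt H.e (ch k) (l k) (S.sg v) ((y k).2 v) ((x k).2 v))) := by
  classical
  have hex : ∀ k, ∃ sig, k ∈ A → IsPol S H (ch k) (l k) (x k).1 (y k).1 sig := fun k => by
    by_cases hk : k ∈ A
    · obtain ⟨sig, hr⟩ := exists_pol h hH (hch k hk) (hx k hk).sel (hy k hk).sel
      exact ⟨sig, fun _ => hr⟩
    · exact ⟨fun _ => 0, fun h0 => absurd h0 hk⟩
  choose sig hsig using hex
  have hnc : ∀ k ∈ A, NC S (sig k) := fun k hk =>
    (hsig k hk).nc hH (hch k hk) (hx k hk).sel (hy k hk).sel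
  have hbf : ∀ k ∈ A, {v | bt H.e (ch k) (l k) (S.sg v) ((x k).2 v) ((y k).2 v) +
      bt H.e (ch k) (l k) (S.sg v) ((y k).2 v) ((x k).2 v) ≠ 0}.Finite := fun k hk =>
    ((bt_fin h hH (hx k hk) (hy k hk)).union (bt_fin h hH (hy k hk) (hx k hk))).subset
      fun v hv => by
        by_contra hn
        simp only [Set.mem_union, Set.mem_ofPred_eq, not_or, not_not] at hn
        exact hv (by rw [hn.1, hn.2, add_zero])
  rw [Finset.sum_congr rfl fun k hk => by
    rw [bb_eq h hH (hch k hk) (hx k hk) (hy k hk) (hsig k hk)], qs_sum h A n hnc hbf]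
  have hd' : ∀ a b, (∑ k ∈ A, n k • sig k a) + a • (∑ k ∈ A, n k • sig k b) -
      (∑ k ∈ A, n k • sig k (a * b)) = g a + a • g b - g (a * b) := fun a b => by
    rw [← hd a b, Finset.smul_sum, ← Finset.sum_add_distrib, ← Finset.sum_sub_distrib]
    refine Finset.sum_congr rfl fun k hk => ?_
    rw [(hsig k hk).2 a b, smul_sub, smul_add, smul_comm a (n k)]
  have hg1 : NC S g := by
    refine NC.of_d hg (c := fun a b => (∑ k ∈ A, n k • sig k a) + a • (∑ k ∈ A, n k • sig k b) -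
      (∑ k ∈ A, n k • sig k (a * b))) hd' ?_
    have h1 : ∑ k ∈ A, n k • sig k 1 = 0 := Finset.sum_eq_zero fun k hk => by
      rw [(hnc k hk).one, smul_zero]
    rw [mul_one, h1, smul_zero, add_zero, sub_zero]
  refine (qs_congr hH h (NC.sum h A fun k hk => (hnc k hk).zsmul (n k)) hg1
    (fin_sum A fun k hk => (hbf k hk).subset fun v hv h0 => hv (by rw [h0, smul_zero])) hd')

end main

/-! ### Finiteness -/

/-- `M[2^n]` is finite. -/
theorem fin_tors (hH : HOk S H) (n : ℕ) : {m : M | (2 : ℕ) ^ n • m = 0}.Finite := by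
  induction n with
  | zero =>
    refine (Set.finite_singleton (0 : M)).subset fun m hm => ?_
    have h1 : (2 : ℕ) ^ 0 • m = 0 := hm
    rwa [pow_zero, one_smul] at h1
  | succ n ih =>
    refine Set.Finite.of_finite_fibers (fun m => (2 : ℕ) • m) ?_ ?_
    · refine ih.subset ?_
      rintro _ ⟨m, hm, rfl⟩
      change (2 : ℕ) ^ n • ((2 : ℕ) • m) = 0
      rw [← mul_smul, ← pow_succ]
      exact hm
    · rintro _ ⟨m, hm, rfl⟩
      refine ((Set.finite_range H.j).image (fun x => m + x)).subset ?_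
      rintro x ⟨_, hx⟩
      have hx' : (2 : ℕ) • x = (2 : ℕ) • m := hx
      obtain ⟨a, ha⟩ := hH.two (x - m) (by rw [smul_sub, hx', sub_self])
      exact ⟨H.j a, ⟨a, rfl⟩, by beta_reduce; rw [ha]; abel⟩

/-- Two quadratic characters with the same values at `sg v` and `phi v` agree on `D v`. -/
theorem homG_ext_D (h : S.Ok) {chi chi' : G → ZMod 2} (hc : S.HomG chi) (hc' : S.HomG chi')
    {v : Pl} (h1 : chi (S.sg v) = chi' (S.sg v)) (h2 : chi (S.phi v) = chi' (S.phi v)) :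
    ∀ s ∈ S.D v, chi s = chi' s := by
  obtain ⟨N, hN, hf⟩ := hc.1
  obtain ⟨N', hN', hf'⟩ := hc'.1
  have hinv : ∀ {c : G → ZMod 2}, (∀ s t, c (s * t) = c s + c t) → ∀ s, c s⁻¹ = c s := by
    intro c hh s
    have e0 : c 1 = 0 := chi_one hh
    have e1 := hh s s⁻¹
    rw [mul_inv_cancel, e0] at e1
    have : ∀ a b : ZMod 2, 0 = a + b → b = a := by decide
    exact this _ _ e1
  intro s hs
  obtain ⟨t, ht, hts⟩ := h.gen v (N ⊓ N') (h.inf_mem N hN N' hN') s hs
  have hcl : ∀ t ∈ Subgroup.closure {S.phi v, S.sg v}, chi t = chi' t := by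
    intro t ht
    induction ht using Subgroup.closure_induction with
    | mem x hx =>
      rcases hx with rfl | rfl
      · exact h2
      · exact h1
    | one => rw [chi_one hc.2, chi_one hc'.2]
    | mul x y _ _ hx hy => rw [hc.2, hc'.2, hx, hy]
    | inv x _ hx => rw [hinv hc.2, hinv hc'.2, hx]
  have e1 : chi s = chi t := by
    have := hf t (t⁻¹ * s) hts.1
    rwa [mul_inv_cancel_left] at this
  have e2 : chi' s = chi' t := by
    have := hf' t (t⁻¹ * s) hts.2
    rwa [mul_inv_cancel_left] at this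
  rw [e1, e2, hcl t ht]

theorem exists_exp_V (h : S.Ok) {A : Set V} (hA : A.Finite) :
    ∃ t : ℕ, ∀ Q ∈ A, (2 : ℕ) ^ t • Q = 0 := by
  induction A, hA using Set.Finite.induction_on with
  | empty => exact ⟨0, fun m hm => hm.elim⟩
  | @insert x A _ _ ih =>
    obtain ⟨k, hk⟩ := ih
    obtain ⟨j, hj⟩ := h.tors x
    refine ⟨k + j, fun m hm => ?_⟩
    rcases hm with rfl | hm
    · exact pow_smul_of_le (by omega) hj
    · exact pow_smul_of_le (by omega) (hk m hm)

/-- The local invariants at a place are bounded uniformly in the twist. -/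
theorem exists_t0 (h : S.Ok) : ∃ t0 : ℕ, ∀ chi, S.HomG chi → ∀ v, v ∉ S.good → ∀ Q : V,
    (∀ s ∈ S.D v, dl chi Q s = 0) → (2 : ℕ) ^ t0 • Q = 0 := by
  classical
  -- a bound for one place and one character
  have h1 : ∀ (v : Pl) (a b : ZMod 2), ∃ t : ℕ, ∀ chi, S.HomG chi → chi (S.sg v) = a →
      chi (S.phi v) = b → ∀ Q : V, (∀ s ∈ S.D v, dl chi Q s = 0) → (2 : ℕ) ^ t • Q = 0 := by
    intro v a b
    by_cases hex : ∃ chi, S.HomG chi ∧ chi (S.sg v) = a ∧ chi (S.phi v) = b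
    · obtain ⟨chi, hchi, ha, hb⟩ := hex
      have hfin := h.fin_inv chi hchi v
      obtain ⟨t, ht⟩ := exists_exp_V h hfin
      refine ⟨t, fun chi' hchi' ha' hb' Q hQ => ht Q fun s hs => ?_⟩
      have h3 : chi s = chi' s :=
        homG_ext_D h hchi hchi' (ha.trans ha'.symm) (hb.trans hb'.symm) s hs
      have h5 := hQ s hs
      simp only [dl, tw, h3] at h5 ⊢
      exact h5
    · exact ⟨0, fun chi hchi ha hb => absurd ⟨chi, hchi, ha, hb⟩ hex⟩
  choose t ht using h1
  have := h.good_fin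
  let B := this.toFinset
  refine ⟨∑ v ∈ B, (∑ a : ZMod 2, ∑ b : ZMod 2, t v a b), fun chi hchi v hv Q hQ => ?_⟩
  have hvB : v ∈ B := by simpa [B] using hv
  have l1 : t v (chi (S.sg v)) (chi (S.phi v)) ≤ ∑ a : ZMod 2, ∑ b : ZMod 2, t v a b :=
    le_trans (Finset.single_le_sum (f := fun b => t v (chi (S.sg v)) b)
      (fun _ _ => Nat.zero_le _) (Finset.mem_univ _))
      (Finset.single_le_sum (f := fun a => ∑ b : ZMod 2, t v a b)
        (fun _ _ => Nat.zero_le _) (Finset.mem_univ _))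
  have l2 : ∑ a : ZMod 2, ∑ b : ZMod 2, t v a b ≤
      ∑ v ∈ B, (∑ a : ZMod 2, ∑ b : ZMod 2, t v a b) :=
    Finset.single_le_sum (f := fun v => ∑ a : ZMod 2, ∑ b : ZMod 2, t v a b)
      (fun _ _ => Nat.zero_le _) hvB
  exact pow_smul_of_le (le_trans l1 l2) (ht v _ _ chi hchi rfl rfl Q hQ)

/-- Rigid Selmer elements of level `k` are killed by `2^(k + t0)`. -/
theorem IsPr.bdd {t0 : ℕ} (ht : ∀ chi, S.HomG chi → ∀ v, v ∉ S.good → ∀ Q : V,
    (∀ s ∈ S.D v, dl chi Q s = 0) → (2 : ℕ) ^ t0 • Q = 0) {chi : G → ZMod 2}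
    (hchi : S.HomG chi) {k : ℕ} {y : (G → V) × (Pl → V)} (hy : IsPr S chi k y) :
    (2 : ℕ) ^ (k + t0) • y = 0 := by
  refine Prod.ext (funext fun s => ?_) (funext fun v => ?_)
  · rw [Prod.smul_fst, Pi.smul_apply, Prod.fst_zero, Pi.zero_apply]
    exact pow_smul_of_le (by omega) (hy.sel.lev s)
  · rw [Prod.smul_snd, Pi.smul_apply, Prod.snd_zero, Pi.zero_apply]
    by_cases hv : v ∈ S.good
    · rw [hy.off v hv, smul_zero]
    · rw [add_comm, pow_add, mul_smul]
      refine ht chi hchi v hv _ fun s hs => ?_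
      rw [dl_nsmul, ← hy.loc v hv s hs, hy.sel.lev]

/-- The values of `q` on the elements of level `k` (for all twists) form a finite set. -/
theorem q_values (h : S.Ok) (hH : HOk S H) {t0 : ℕ} (ht : ∀ chi, S.HomG chi → ∀ v, v ∉ S.good →
    ∀ Q : V, (∀ s ∈ S.D v, dl chi Q s = 0) → (2 : ℕ) ^ t0 • Q = 0) {chi : G → ZMod 2}
    (hchi : S.HomG chi) {k : ℕ} {y : (G → V) × (Pl → V)} (hy : IsPr S chi k y) :
    (2 : ℕ) ^ (2 * (k + t0)) • q S H chi k y = 0 := by
  have h1 := q_nsmul h hH hchi hy (2 ^ (k + t0))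
  rw [hy.bdd ht hchi, q_zero h hH hchi, ← pow_mul, mul_comm] at h1
  exact h1.symm

end Pool.Agent.SmNH
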