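import Pool.Agent.Lib.SmNH.Q.Sum
import Pool.Agent.Lib.SmNH.G.Pr

/-!
# HEIGHTS over SMITH-U (MP_48b749_nt), block Q, module Main: the height form and its polar form

`exists_rho`, `q_eq` (any splitting), `bb_eq` (any splitting of the polar cocycle), `q_comb`, `bb_comb`
(linear combinations over different twists and levels), bilinearity, change of the level.
-/

set_option autoImplicit false

open Finset

namespace Pool.Agent.SmNH

open Pool.Agent.SmN

variable {G V V1 Pl M : Type*} [Group G] [AddCommGroup V] [DistribMulAction G V]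
  [AddCommGroup V1] [Module (ZMod 2) V1] [AddCommGroup M] [DistribMulAction G M]
  {S : Sys G V V1 Pl} {H : HData V M Pl}

/-! ### Rigid Selmer elements -/

section pr

variable {chi : G → ZMod 2} {i : ℕ}

/-- The level of the local points. -/
theorem IsPr.lev_sg (h : S.Ok) {y : (G → V) × (Pl → V)} (hy : IsPr S chi i y) (v : Pl) :
    (2 : ℕ) ^ i • dl chi (y.2 v) (S.sg v) = 0 := by
  by_cases hv : v ∈ S.good
  · rw [hy.off v hv, dl_zero, smul_zero]
  · rw [← hy.loc v hv _ (h.sg_mem v), hy.sel.lev]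

theorem IsPr.fin (h : S.Ok) {y : (G → V) × (Pl → V)} (hy : IsPr S chi i y) :
    {v | y.2 v ≠ 0}.Finite :=
  h.good_fin.subset fun v hv hg => hv (hy.off v hg)

end pr

/-! ### Splittings -/

/-- `σ` splits the polar cocycle of `Psi` and `Psi'`. -/
def IsPol (S : Sys G V V1 Pl) (H : HData V M Pl) (chi : G → ZMod 2) (i : ℕ) (Psi Psi' : G → V)
    (sig : G → M) : Prop :=
  S.TF sig ∧ ∀ s t, H.e i (Psi s) (tw chi s (Psi' t)) + H.e i (Psi' s) (tw chi s (Psi t)) =
    sig s + s • sig t - sig (s * t)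

section main

variable (h : S.Ok) (hH : HOk S H) {chi : G → ZMod 2} (hchi : S.HomG chi) {i : ℕ}

include h hH hchi

theorem exists_rho {Psi : G → V} (hP : S.IsSel chi i Psi) : ∃ rho, IsRho S H chi i Psi rho := by
  have hw := hH.weil
  obtain ⟨N, hN, h1⟩ := hP.tf
  obtain ⟨N', hN', h2⟩ := Sys.act_tf h hchi i
  obtain ⟨b, hb, h3⟩ := hH.hasse (fun s t => H.e i (Psi s) (tw chi s (Psi t)))
    ⟨N ⊓ N', h.inf_mem _ hN _ hN', fun s t n hn m hm => by
      beta_reduce
      rw [h1 s n hn.1, h1 t m hm.1, h2 s n hn.2 _ (hP.lev t)]⟩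
    (fun s t w => by
      beta_reduce
      have l1 := hP.lev s
      have l2 := hP.lev t
      have l3 := pow_smul_tw chi s l2
      have l4 := pow_smul_tw chi (s * t) (hP.lev w)
      rw [hP.coc s t, hP.coc t w, tw_add, ← tw_mul hchi.2,
        ← hw.tw_equiv chi i s l2 (pow_smul_tw chi t (hP.lev w)), ← tw_mul hchi.2,
        hw.add_left _ _ _ _ l1 l3 l4, hw.add_right _ _ _ _ l1 l3 l4]
      abel)
    (fun v => by
      obtain ⟨Q, hQ⟩ := hP.loc v
      obtain ⟨r0, hr0⟩ := h.tors Q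
      obtain ⟨Qr, hQr⟩ := exists_pow_half h Q r0
      have hq : (2 : ℕ) ^ (i + r0) • Q = 0 := pow_smul_of_le (by omega) hr0
      refine ⟨fun s => H.e (i + r0) Q (dl chi Qr s),
        ((Sys.dl_tf h hchi Qr).comp (fun x => H.e (i + r0) Q x)).on _, fun s hs t ht => ?_⟩
      beta_reduce
      rw [zero_add, hQ s hs, hQ t ht]
      exact ob_self hw hchi.2 hQr hq s t (by rw [← hQ s hs, hP.lev]) (by rw [← hQ t ht, hP.lev])
        (by rw [← hQ _ (mul_mem hs ht), hP.lev]))
  exact ⟨b, hb, h3⟩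

omit h in
theorem IsRho.nc {Psi : G → V} (hP : S.IsSel chi i Psi) {rho : G → M}
    (hr : IsRho S H chi i Psi rho) : NC S rho := by
  refine NC.of_d hr.1 hr.2 ?_
  have h0 : (2 : ℕ) ^ i • tw chi 1 (Psi 1) = 0 := pow_smul_tw chi 1 (hP.lev 1)
  rw [coc_one hchi.2 hP.coc, tw_zero, hH.weil.zero_left (smul_zero _)]

omit h in
theorem IsPol.nc {Psi Psi' : G → V} (hP : S.IsSel chi i Psi) (hP' : S.IsSel chi i Psi')
    {sig : G → M} (hr : IsPol S H chi i Psi Psi' sig) : NC S sig := by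
  refine NC.of_d hr.1 hr.2 ?_
  rw [coc_one hchi.2 hP.coc, coc_one hchi.2 hP'.coc, tw_zero, hH.weil.zero_left (smul_zero _),
    add_zero]

omit hchi in
theorem bt_fin {y y' : (G → V) × (Pl → V)} (hy : IsPr S chi i y) (hy' : IsPr S chi i y') :
    {v | bt H.e chi i (S.sg v) (y.2 v) (y'.2 v) ≠ 0}.Finite := by
  refine (hy.fin h).subset fun v hv h0 => hv ?_
  rw [h0, bt_zero_left h hH.weil (hH.sgM v) (hy'.lev_sg h v)]

/-- The height form by any splitting of the cup square. -/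
theorem q_eq {y : (G → V) × (Pl → V)} (hy : IsPr S chi i y) {rho : G → M}
    (hr : IsRho S H chi i y.1 rho) :
    q S H chi i y = qs S H rho (fun v => bt H.e chi i (S.sg v) (y.2 v) (y.2 v)) := by
  have hex : ∃ rho : G → M, IsRho S H chi i y.1 rho := ⟨rho, hr⟩
  rw [q, dif_pos hex]
  refine qs_congr hH h (hex.choose_spec.nc hH hchi hy.sel) (hr.nc hH hchi hy.sel)
    (bt_fin h hH hy hy) fun s t => ?_
  rw [← hr.2, ← hex.choose_spec.2]

omit hchi in
/-- Linear combinations of values of height forms, for different twists and levels. -/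
theorem q_comb {ι : Type*} (A : Finset ι) (n : ι → ℤ) {ch : ι → G → ZMod 2} {l : ι → ℕ}
    {y : ι → (G → V) × (Pl → V)} (hch : ∀ k ∈ A, S.HomG (ch k))
    (hy : ∀ k ∈ A, IsPr S (ch k) (l k) (y k)) {g : G → M} (hg : S.TF g)
    (hd : ∀ a b, ∑ k ∈ A, n k • H.e (l k) ((y k).1 a) (tw (ch k) a ((y k).1 b)) =
      g a + a • g b - g (a * b)) :
    ∑ k ∈ A, n k • q S H (ch k) (l k) (y k) =
      ∑ᶠ v, H.deg v • H.nm v (g (S.sg v) -
        ∑ k ∈ A, n k • bt H.e (ch k) (l k) (S.sg v) ((y k).2 v) ((y k).2 v)) := by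
  classical
  have hex : ∀ k, ∃ rho, k ∈ A → IsRho S H (ch k) (l k) (y k).1 rho := fun k => by
    by_cases hk : k ∈ A
    · obtain ⟨rho, hr⟩ := exists_rho h hH (hch k hk) (hy k hk).sel
      exact ⟨rho, fun _ => hr⟩
    · exact ⟨fun _ => 0, fun h0 => absurd h0 hk⟩
  choose rho hrho using hex
  have hnc : ∀ k ∈ A, NC S (rho k) := fun k hk => (hrho k hk).nc hH (hch k hk) (hy k hk).sel
  have hbf : ∀ k ∈ A, {v | bt H.e (ch k) (l k) (S.sg v) ((y k).2 v) ((y k).2 v) ≠ 0}.Finite :=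
    fun k hk => bt_fin h hH (hy k hk) (hy k hk)
  rw [Finset.sum_congr rfl fun k hk => by rw [q_eq h hH (hch k hk) (hy k hk) (hrho k hk)],
    qs_sum h A n hnc hbf]
  have hd' : ∀ a b, (∑ k ∈ A, n k • rho k a) + a • (∑ k ∈ A, n k • rho k b) -
      (∑ k ∈ A, n k • rho k (a * b)) = g a + a • g b - g (a * b) := fun a b => by
    rw [← hd a b, Finset.smul_sum, ← Finset.sum_add_distrib, ← Finset.sum_sub_distrib]
    refine Finset.sum_congr rfl fun k hk => ?_
    rw [(hrho k hk).2 a b, smul_sub, smul_add, smul_comm a (n k)]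
  have hg1 : NC S g := by
    refine NC.of_d hg (c := fun a b => (∑ k ∈ A, n k • rho k a) + a • (∑ k ∈ A, n k • rho k b) -
      (∑ k ∈ A, n k • rho k (a * b))) hd' ?_
    have h1 : ∑ k ∈ A, n k • rho k 1 = 0 := Finset.sum_eq_zero fun k hk => by
      rw [(hnc k hk).one, smul_zero]
    rw [mul_one, h1, smul_zero, add_zero, sub_zero]
  refine (qs_congr hH h (NC.sum h A fun k hk => (hnc k hk).zsmul (n k)) hg1
    (fin_sum A fun k hk => (hbf k hk).subset fun v hv h0 => hv (by rw [h0, smul_zero])) hd')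

/-- The polar form by any splitting of the polar cocycle. -/
theorem bb_eq {y y' : (G → V) × (Pl → V)} (hy : IsPr S chi i y) (hy' : IsPr S chi i y')
    {sig : G → M} (hr : IsPol S H chi i y.1 y'.1 sig) :
    bb S H chi i y y' = qs S H sig (fun v => bt H.e chi i (S.sg v) (y.2 v) (y'.2 v) +
      bt H.e chi i (S.sg v) (y'.2 v) (y.2 v)) := by
  have hw := hH.weil
  obtain ⟨r, hr1⟩ := exists_rho h hH hchi hy.sel
  obtain ⟨r', hr1'⟩ := exists_rho h hH hchi hy'.sel
  obtain ⟨r'', hr1''⟩ := exists_rho h hH hchi (hy.add h hy').sel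
  have n1 := hr1.nc hH hchi hy.sel
  have n1' := hr1'.nc hH hchi hy'.sel
  have n1'' := hr1''.nc hH hchi (hy.add h hy').sel
  have f1 := bt_fin h hH hy hy
  have f1' := bt_fin h hH hy' hy'
  have f1'' := bt_fin h hH (hy.add h hy') (hy.add h hy')
  have f2 : {v | bt H.e chi i (S.sg v) ((y + y').2 v) ((y + y').2 v) -
      bt H.e chi i (S.sg v) (y.2 v) (y.2 v) ≠ 0}.Finite := by
    refine (f1''.union f1).subset fun v hv => ?_
    by_contra hn
    simp only [Set.mem_union, Set.mem_ofPred_eq, not_or, not_not] at hn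
    exact hv (by rw [hn.1, hn.2, sub_zero])
  rw [bb, q_eq h hH hchi (hy.add h hy') hr1'', q_eq h hH hchi hy hr1, q_eq h hH hchi hy' hr1',
    ← qs_sub h n1'' n1 f1'' f1, ← qs_sub h (NC.sub h n1'' n1) n1' f2 f1']
  have e1 : (fun v => bt H.e chi i (S.sg v) ((y + y').2 v) ((y + y').2 v) -
      bt H.e chi i (S.sg v) (y.2 v) (y.2 v) - bt H.e chi i (S.sg v) (y'.2 v) (y'.2 v)) =
      fun v => bt H.e chi i (S.sg v) (y.2 v) (y'.2 v) +
        bt H.e chi i (S.sg v) (y'.2 v) (y.2 v) := by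
    funext v
    have l1 := hy.lev_sg h v
    have l2 := hy'.lev_sg h v
    have l3 : (2 : ℕ) ^ i • dl chi (y.2 v + y'.2 v) (S.sg v) = 0 := by
      rw [dl_add]; exact lev_add l1 l2
    rw [Prod.snd_add, Pi.add_apply, bt_add_left h hw (hH.sgM v) l1 l2 l3,
      bt_add_right h hw (hH.sgM v) l1 l1 l2, bt_add_right h hw (hH.sgM v) l2 l1 l2]
    abel
  rw [e1]
  refine qs_congr hH h (NC.sub h (NC.sub h n1'' n1) n1') (hr.nc hH hchi hy.sel hy'.sel) ?_
    fun s t => ?_
  · refine ((bt_fin h hH hy hy').union (bt_fin h hH hy' hy)).subset fun v hv => ?_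
    by_contra hn
    simp only [Set.mem_union, Set.mem_ofPred_eq, not_or, not_not] at hn
    exact hv (by rw [hn.1, hn.2, add_zero])
  · rw [← hr.2 s t]
    have g1 := hr1.2 s t
    have g1' := hr1'.2 s t
    have g1'' := hr1''.2 s t
    rw [Prod.fst_add, Pi.add_apply, Pi.add_apply, tw_add] at g1''
    have l1 := hy.sel.lev s
    have l2 := hy'.sel.lev s
    have l3 := pow_smul_tw chi s (hy.sel.lev t)
    have l4 := pow_smul_tw chi s (hy'.sel.lev t)
    rw [hw.add_left _ _ _ _ l1 l2 (lev_add l3 l4), hw.add_right _ _ _ _ l1 l3 l4,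
      hw.add_right _ _ _ _ l2 l3 l4, g1, g1'] at g1''
    rw [smul_sub, smul_sub]
    have e2 : H.e i (y.1 s) (tw chi s (y'.1 t)) + H.e i (y'.1 s) (tw chi s (y.1 t)) =
        (r'' s + s • r'' t - r'' (s * t)) - (r s + s • r t - r (s * t)) -
          (r' s + s • r' t - r' (s * t)) := by
      rw [← g1'']; abel
    rw [e2]; abel

theorem exists_pol {Psi Psi' : G → V} (hP : S.IsSel chi i Psi) (hP' : S.IsSel chi i Psi') :
    ∃ sig, IsPol S H chi i Psi Psi' sig := by
  have hw := hH.weil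
  obtain ⟨r, hr1⟩ := exists_rho h hH hchi hP
  obtain ⟨r', hr1'⟩ := exists_rho h hH hchi hP'
  obtain ⟨r'', hr1''⟩ := exists_rho h hH hchi (hP.add h hP')
  refine ⟨fun t => r'' t - r t - r' t, Sys.TF.comp₂ h (Sys.TF.comp₂ h hr1''.1 hr1.1
    (fun a b => a - b)) hr1'.1 (fun a b => a - b), fun s t => ?_⟩
  beta_reduce
  have g1 := hr1.2 s t
  have g1' := hr1'.2 s t
  have g1'' := hr1''.2 s t
  rw [Pi.add_apply, Pi.add_apply, tw_add] at g1''
  have l1 := hP.lev s
  have l2 := hP'.lev s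
  have l3 := pow_smul_tw chi s (hP.lev t)
  have l4 := pow_smul_tw chi s (hP'.lev t)
  rw [hw.add_left _ _ _ _ l1 l2 (lev_add l3 l4), hw.add_right _ _ _ _ l1 l3 l4,
    hw.add_right _ _ _ _ l2 l3 l4, g1, g1'] at g1''
  rw [smul_sub, smul_sub]
  have e2 : H.e i (Psi s) (tw chi s (Psi' t)) + H.e i (Psi' s) (tw chi s (Psi t)) =
      (r'' s + s • r'' t - r'' (s * t)) - (r s + s • r t - r (s * t)) -
        (r' s + s • r' t - r' (s * t)) := by
    rw [← g1'']; abel
  rw [e2]; abel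

omit h hH hchi in
theorem bb_comm (y y' : (G → V) × (Pl → V)) : bb S H chi i y y' = bb S H chi i y' y := by
  rw [bb, bb, add_comm y y', sub_right_comm]

theorem bb_add_left {x x' y : (G → V) × (Pl → V)} (hx : IsPr S chi i x) (hx' : IsPr S chi i x')
    (hy : IsPr S chi i y) :
    bb S H chi i (x + x') y = bb S H chi i x y + bb S H chi i x' y := by
  have hw := hH.weil
  obtain ⟨s1, h1⟩ := exists_pol h hH hchi hx.sel hy.sel
  obtain ⟨s2, h2⟩ := exists_pol h hH hchi hx'.sel hy.sel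
  have h3 : IsPol S H chi i (x + x').1 y.1 (fun t => s1 t + s2 t) := by
    refine ⟨Sys.TF.comp₂ h h1.1 h2.1 (fun a b => a + b), fun s t => ?_⟩
    beta_reduce
    have l1 := hx.sel.lev s
    have l2 := hx'.sel.lev s
    have l3 := pow_smul_tw chi s (hx.sel.lev t)
    have l4 := pow_smul_tw chi s (hx'.sel.lev t)
    have l5 := pow_smul_tw chi s (hy.sel.lev t)
    have l6 := hy.sel.lev s
    rw [Prod.fst_add, Pi.add_apply, Pi.add_apply, tw_add, hw.add_left _ _ _ _ l1 l2 l5,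
      hw.add_right _ _ _ _ l6 l3 l4, smul_add]
    have e1 : H.e i (x.1 s) (tw chi s (y.1 t)) + H.e i (x'.1 s) (tw chi s (y.1 t)) +
        (H.e i (y.1 s) (tw chi s (x.1 t)) + H.e i (y.1 s) (tw chi s (x'.1 t))) =
        (H.e i (x.1 s) (tw chi s (y.1 t)) + H.e i (y.1 s) (tw chi s (x.1 t))) +
        (H.e i (x'.1 s) (tw chi s (y.1 t)) + H.e i (y.1 s) (tw chi s (x'.1 t))) := by abel
    rw [e1, h1.2, h2.2]
    abel
  have fin2 : ∀ {a b : (G → V) × (Pl → V)}, IsPr S chi i a → IsPr S chi i b →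
      {v | bt H.e chi i (S.sg v) (a.2 v) (b.2 v) + bt H.e chi i (S.sg v) (b.2 v) (a.2 v) ≠
        0}.Finite := fun ha hb =>
    ((bt_fin h hH ha hb).union (bt_fin h hH hb ha)).subset fun v hv => by
      by_contra hn
      simp only [Set.mem_union, Set.mem_ofPred_eq, not_or, not_not] at hn
      exact hv (by rw [hn.1, hn.2, add_zero])
  rw [bb_eq h hH hchi (hx.add h hx') hy h3, bb_eq h hH hchi hx hy h1, bb_eq h hH hchi hx' hy h2,
    ← qs_add h (h1.nc hH hchi hx.sel hy.sel) (h2.nc hH hchi hx'.sel hy.sel) (fin2 hx hy)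
      (fin2 hx' hy)]
  congr 1
  funext v
  rw [Prod.snd_add, Pi.add_apply, bt_add_left h hw (hH.sgM v) (hx.lev_sg h v) (hx'.lev_sg h v)
    (hy.lev_sg h v), bt_add_right h hw (hH.sgM v) (hy.lev_sg h v) (hx.lev_sg h v)
    (hx'.lev_sg h v)]
  abel

theorem bb_add_right {x y y' : (G → V) × (Pl → V)} (hx : IsPr S chi i x) (hy : IsPr S chi i y)
    (hy' : IsPr S chi i y') :
    bb S H chi i x (y + y') = bb S H chi i x y + bb S H chi i x y' := by
  rw [bb_comm, bb_add_left h hH hchi hy hy' hx, bb_comm y, bb_comm y']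

omit h hH hchi in
/-- `q (x + y) = q x + q y + bb x y`. -/
theorem q_add (x y : (G → V) × (Pl → V)) :
    q S H chi i (x + y) = q S H chi i x + q S H chi i y + bb S H chi i x y := by
  rw [bb]; abel

theorem bb_zero_left {y : (G → V) × (Pl → V)} (hy : IsPr S chi i y) :
    bb S H chi i 0 y = 0 := by
  have := bb_add_left h hH hchi (IsPr.zero h chi i) (IsPr.zero h chi i) hy
  rw [add_zero] at this
  exact left_eq_add.mp this

theorem bb_zero_right {y : (G → V) × (Pl → V)} (hy : IsPr S chi i y) :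
    bb S H chi i y 0 = 0 := by
  rw [bb_comm]; exact bb_zero_left h hH hchi hy

theorem bb_neg_left {x y : (G → V) × (Pl → V)} (hx : IsPr S chi i x) (hy : IsPr S chi i y) :
    bb S H chi i (-x) y = -bb S H chi i x y := by
  have := bb_add_left h hH hchi hx hx.neg hy
  rw [add_neg_cancel, bb_zero_left h hH hchi hy] at this
  exact eq_neg_of_add_eq_zero_right this.symm

theorem bb_neg_right {x y : (G → V) × (Pl → V)} (hx : IsPr S chi i x) (hy : IsPr S chi i y) :
    bb S H chi i x (-y) = -bb S H chi i x y := by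
  rw [bb_comm, bb_neg_left h hH hchi hy hx, bb_comm]

theorem bb_nsmul_left {x y : (G → V) × (Pl → V)} (hx : IsPr S chi i x) (hy : IsPr S chi i y)
    (n : ℕ) : bb S H chi i (n • x) y = n • bb S H chi i x y := by
  induction n with
  | zero => rw [zero_smul, zero_smul, bb_zero_left h hH hchi hy]
  | succ n ih =>
    rw [succ_nsmul, succ_nsmul, bb_add_left h hH hchi (hx.nsmul h n) hx hy, ih]

theorem bb_nsmul_right {x y : (G → V) × (Pl → V)} (hx : IsPr S chi i x) (hy : IsPr S chi i y)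
    (n : ℕ) : bb S H chi i x (n • y) = n • bb S H chi i x y := by
  rw [bb_comm, bb_nsmul_left h hH hchi hy hx, bb_comm]

theorem bb_zsmul_left {x y : (G → V) × (Pl → V)} (hx : IsPr S chi i x) (hy : IsPr S chi i y)
    (n : ℤ) : bb S H chi i (n • x) y = n • bb S H chi i x y := by
  cases n with
  | ofNat n => simpa using bb_nsmul_left h hH hchi hx hy n
  | negSucc n =>
    rw [negSucc_zsmul, negSucc_zsmul, bb_neg_left h hH hchi (hx.nsmul h _) hy,
      bb_nsmul_left h hH hchi hx hy]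

theorem bb_zsmul_right {x y : (G → V) × (Pl → V)} (hx : IsPr S chi i x) (hy : IsPr S chi i y)
    (n : ℤ) : bb S H chi i x (n • y) = n • bb S H chi i x y := by
  rw [bb_comm, bb_zsmul_left h hH hchi hy hx, bb_comm]

theorem bb_sub_left {x x' y : (G → V) × (Pl → V)} (hx : IsPr S chi i x) (hx' : IsPr S chi i x')
    (hy : IsPr S chi i y) :
    bb S H chi i (x - x') y = bb S H chi i x y - bb S H chi i x' y := by
  rw [sub_eq_add_neg, bb_add_left h hH hchi hx hx'.neg hy, bb_neg_left h hH hchi hx' hy,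
    ← sub_eq_add_neg]

theorem bb_sub_right {x y y' : (G → V) × (Pl → V)} (hx : IsPr S chi i x) (hy : IsPr S chi i y)
    (hy' : IsPr S chi i y') :
    bb S H chi i x (y - y') = bb S H chi i x y - bb S H chi i x y' := by
  rw [bb_comm, bb_sub_left h hH hchi hy hy' hx, bb_comm y, bb_comm y']

/-- `bb y y = 2 q y`. -/
theorem bb_self {y : (G → V) × (Pl → V)} (hy : IsPr S chi i y) :
    bb S H chi i y y = (2 : ℕ) • q S H chi i y := by
  obtain ⟨r, hr⟩ := exists_rho h hH hchi hy.sel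
  have h1 : IsPol S H chi i y.1 y.1 (fun t => (2 : ℕ) • r t) := by
    refine ⟨hr.1.comp _, fun s t => ?_⟩
    beta_reduce
    rw [hr.2, smul_comm s, ← smul_add, ← smul_sub, two_nsmul]
  rw [bb_eq h hH hchi hy hy h1, q_eq h hH hchi hy hr,
    ← qs_nsmul h (hr.nc hH hchi hy.sel) (bt_fin h hH hy hy)]
  congr 1
  funext v
  rw [two_nsmul]

theorem q_zero : q S H chi i 0 = 0 := by
  have h0 := IsPr.zero (V := V) (Pl := Pl) h chi i
  have h1 := bb_zero_left h hH hchi h0
  rw [bb, add_zero, sub_self, zero_sub, neg_eq_zero] at h1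
  exact h1

theorem q_nsmul {y : (G → V) × (Pl → V)} (hy : IsPr S chi i y) (n : ℕ) :
    q S H chi i (n • y) = (n ^ 2) • q S H chi i y := by
  induction n with
  | zero => rw [zero_smul, q_zero h hH hchi, zero_pow (by norm_num), zero_smul]
  | succ n ih =>
    rw [succ_nsmul, q_add, ih, bb_nsmul_left h hH hchi hy hy, bb_self h hH hchi hy, ← mul_smul]
    have e1 : (n + 1) ^ 2 = n ^ 2 + 1 + n * 2 := by ring
    rw [e1, add_smul, add_smul, one_smul]

theorem q_neg {y : (G → V) × (Pl → V)} (hy : IsPr S chi i y) :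
    q S H chi i (-y) = q S H chi i y := by
  have h1 := q_add (S := S) (H := H) (chi := chi) (i := i) y (-y)
  rw [add_neg_cancel, q_zero h hH hchi, bb_neg_right h hH hchi hy hy, bb_self h hH hchi hy,
    two_nsmul] at h1
  have h2 : q S H chi i y + q S H chi i (-y) + -(q S H chi i y + q S H chi i y) =
      q S H chi i (-y) - q S H chi i y := by abel
  rw [h2] at h1
  exact sub_eq_zero.mp h1.symm

theorem q_zsmul {y : (G → V) × (Pl → V)} (hy : IsPr S chi i y) (n : ℤ) :
    q S H chi i (n • y) = (n ^ 2) • q S H chi i y := by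
  obtain ⟨m, rfl | rfl⟩ := n.eq_nat_or_neg
  · rw [natCast_zsmul, q_nsmul h hH hchi hy, ← Nat.cast_pow, natCast_zsmul]
  · rw [neg_smul, q_neg h hH hchi (hy.zsmul h _), natCast_zsmul, q_nsmul h hH hchi hy, neg_sq,
      ← Nat.cast_pow, natCast_zsmul]

/-! ### Levels -/

/-- `q (i+1) = 2 q i` on the elements of level `i`. -/
theorem q_succ {y : (G → V) × (Pl → V)} (hy : IsPr S chi i y) :
    q S H chi (i + 1) y = (2 : ℕ) • q S H chi i y := by
  have hw := hH.weil
  obtain ⟨r, hr⟩ := exists_rho h hH hchi hy.sel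
  have hy1 : IsPr S chi (i + 1) y := hy.mono (Nat.le_succ i)
  have h1 : IsRho S H chi (i + 1) y.1 (fun t => (2 : ℕ) • r t) := by
    refine ⟨hr.1.comp _, fun s t => ?_⟩
    beta_reduce
    have l1 := hy.sel.lev s
    have l2 := pow_smul_tw chi s (hy.sel.lev t)
    rw [smul_comm s, ← smul_add, ← smul_sub, ← hr.2, hw.comp _ _ _ l1 (lev_succ l2), two_nsmul,
      two_nsmul, hw.add_right _ _ _ _ l1 l2 l2]
  rw [q_eq h hH hchi hy1 h1, q_eq h hH hchi hy hr,
    ← qs_nsmul h (hr.nc hH hchi hy.sel) (bt_fin h hH hy hy)]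
  congr 1
  funext v
  exact bt_succ h hw (hH.sgM v) (hy.lev_sg h v) (hy.lev_sg h v)

theorem bb_succ {x y : (G → V) × (Pl → V)} (hx : IsPr S chi i x) (hy : IsPr S chi i y) :
    bb S H chi (i + 1) x y = (2 : ℕ) • bb S H chi i x y := by
  rw [bb, bb, q_succ h hH hchi hx, q_succ h hH hchi hy, q_succ h hH hchi (hx.add h hy), smul_sub,
    smul_sub]

theorem q_lev {y : (G → V) × (Pl → V)} (hy : IsPr S chi i y) (r : ℕ) :
    q S H chi (i + r) y = (2 : ℕ) ^ r • q S H chi i y := by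
  induction r with
  | zero => rw [add_zero, pow_zero, one_smul]
  | succ r ih =>
    rw [← add_assoc, q_succ h hH hchi (hy.mono (Nat.le_add_right i r)), ih, pow_succ', mul_smul]

theorem bb_lev {x y : (G → V) × (Pl → V)} (hx : IsPr S chi i x) (hy : IsPr S chi i y) (r : ℕ) :
    bb S H chi (i + r) x y = (2 : ℕ) ^ r • bb S H chi i x y := by
  rw [bb, bb, q_lev h hH hchi hx, q_lev h hH hchi hy, q_lev h hH hchi (hx.add h hy), smul_sub,
    smul_sub]

/-- `q i (2 y) = 2 q (i+1) y`. -/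
theorem q_two {y : (G → V) × (Pl → V)} (hy : IsPr S chi (i + 1) y) :
    q S H chi i ((2 : ℕ) • y) = (2 : ℕ) • q S H chi (i + 1) y := by
  have hw := hH.weil
  obtain ⟨r, hr⟩ := exists_rho h hH hchi hy.sel
  have h1 : IsRho S H chi i ((2 : ℕ) • y).1 (fun t => (2 : ℕ) • r t) := by
    refine ⟨hr.1.comp _, fun s t => ?_⟩
    beta_reduce
    have l1 := hy.sel.lev s
    have l2 := pow_smul_tw chi s (hy.sel.lev t)
    have l3 : (2 : ℕ) ^ i • ((2 : ℕ) • y.1 s) = 0 := by rw [← mul_smul, ← pow_succ, l1]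
    rw [smul_comm s, ← smul_add, ← smul_sub, ← hr.2, Prod.smul_fst, Pi.smul_apply, Pi.smul_apply,
      tw_nsmul, ← hw.comp _ _ _ l3 l2, two_nsmul, two_nsmul, hw.add_left _ _ _ _ l1 l1 l2]
  rw [q_eq h hH hchi hy.two h1, q_eq h hH hchi hy hr,
    ← qs_nsmul h (hr.nc hH hchi hy.sel) (bt_fin h hH hy hy)]
  congr 1
  funext v
  exact bt_two_two h hw (hH.sgM v) (hy.lev_sg h v) (hy.lev_sg h v)

/-- `bb i (2 x) y = bb (i+1) x y`. -/
theorem bb_two_left {x y : (G → V) × (Pl → V)} (hx : IsPr S chi (i + 1) x)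
    (hy : IsPr S chi i y) : bb S H chi i ((2 : ℕ) • x) y = bb S H chi (i + 1) x y := by
  have hw := hH.weil
  have hy1 : IsPr S chi (i + 1) y := hy.mono (Nat.le_succ i)
  obtain ⟨sg, hsg⟩ := exists_pol h hH hchi hx.sel hy1.sel
  have h1 : IsPol S H chi i ((2 : ℕ) • x).1 y.1 sg := by
    refine ⟨hsg.1, fun s t => ?_⟩
    rw [← hsg.2]
    have l1 := hx.sel.lev s
    have l2 := pow_smul_tw chi s (hx.sel.lev t)
    have l3 := hy.sel.lev s
    have l4 := pow_smul_tw chi s (hy.sel.lev t)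
    rw [Prod.smul_fst, Pi.smul_apply, Pi.smul_apply, tw_nsmul, ← hw.comp _ _ _ l3 l2,
      comp_right hw (r := i) (i := 1) l1 l4, pow_one]
  rw [bb_eq h hH hchi hx.two hy h1, bb_eq h hH hchi hx hy1 hsg]
  congr 1
  funext v
  have e1 := bt_two_left h hw (hH.sgM v) (hx.lev_sg h v) (hy.lev_sg h v)
  have e2 := bt_two_right h hw (hH.sgM v) (hy.lev_sg h v) (hx.lev_sg h v)
  exact congrArg₂ (· + ·) e1 e2

theorem bb_two_right {x y : (G → V) × (Pl → V)} (hx : IsPr S chi i x)
    (hy : IsPr S chi (i + 1) y) : bb S H chi i x ((2 : ℕ) • y) = bb S H chi (i + 1) x y := by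
  rw [bb_comm, bb_two_left h hH hchi hy hx, bb_comm]

end main

end Pool.Agent.SmNH
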