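import Pool.Agent.Lib.SmN.P.Ob

/-!
# HEIGHTS over SMITH-U (MP_48b749_nt), block Q, module Loc: the local form

`bt e chi i t Q Q' = 2^i ⟨Q^, t * Q'^ - Q'^⟩` (`Q^` a lift of `Q ∈ V = V_2 / T`): for
`2^(i+r) Q = 0` and `2^r Q'' = Q'` it is `e (i+r) Q (dl chi Q'' t)`.  It is biadditive on
`{Q | 2^i (t * Q - Q) = 0}` if `t` acts trivially on `M` (`t = sg v`).

`bt Q Q` is the value at `t` of the local splitting of the cup product of `dl Q` with itself.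
-/

set_option autoImplicit false

namespace Pool.Agent.SmNH

open Pool.Agent.SmN

variable {G V V1 Pl M : Type*} [Group G] [AddCommGroup V] [DistribMulAction G V]
  [AddCommGroup V1] [Module (ZMod 2) V1] [AddCommGroup M] [DistribMulAction G M]

open scoped Classical in
/-- The local form `2^i ⟨Q^, t * Q'^ - Q'^⟩`. -/
noncomputable def bt (e : ℕ → V → V → M) (chi : G → ZMod 2) (i : ℕ) (t : G) (Q Q' : V) : M :=
  if h : ∃ p : ℕ × V, (2 : ℕ) ^ (i + p.1) • Q = 0 ∧ (2 : ℕ) ^ p.1 • p.2 = Q' then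
    e (i + h.choose.1) Q (dl chi h.choose.2 t) else 0

section

variable {S : Sys G V V1 Pl} {e : ℕ → V → V → M} {j : ZMod 2 →+ M}

/-- Existence of deep halves. -/
theorem exists_pow_half (h : S.Ok) (Q : V) (r : ℕ) : ∃ Q' : V, (2 : ℕ) ^ r • Q' = Q := by
  induction r with
  | zero => exact ⟨Q, by rw [pow_zero, one_smul]⟩
  | succ r ih =>
    obtain ⟨Q', hQ'⟩ := ih
    obtain ⟨Q'', hQ''⟩ := h.half Q'
    exact ⟨Q'', by rw [pow_succ, mul_smul, hQ'', hQ']⟩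

theorem lev_dl {chi : G → ZMod 2} {i r : ℕ} {t : G} {Q Q' : V} (h1 : (2 : ℕ) ^ r • Q' = Q)
    (h2 : (2 : ℕ) ^ i • dl chi Q t = 0) : (2 : ℕ) ^ (i + r) • dl chi Q' t = 0 := by
  rw [pow_add, mul_smul, ← dl_nsmul, h1, h2]

theorem lev_succ {m : ℕ} {x : V} (h : (2 : ℕ) ^ m • x = 0) : (2 : ℕ) ^ (m + 1) • x = 0 :=
  pow_smul_of_le (Nat.le_succ m) h

theorem lev_neg {m : ℕ} {x : V} (h : (2 : ℕ) ^ m • x = 0) : (2 : ℕ) ^ m • (-x) = 0 := by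
  rw [smul_neg, h, neg_zero]

theorem lev_sub {m : ℕ} {x y : V} (hx : (2 : ℕ) ^ m • x = 0) (hy : (2 : ℕ) ^ m • y = 0) :
    (2 : ℕ) ^ m • (x - y) = 0 := by
  rw [smul_sub, hx, hy, sub_zero]

theorem lev_add {m : ℕ} {x y : V} (hx : (2 : ℕ) ^ m • x = 0) (hy : (2 : ℕ) ^ m • y = 0) :
    (2 : ℕ) ^ m • (x + y) = 0 := by
  rw [smul_add, hx, hy, add_zero]

/-- `e` in `V[2^(i+r)]` with second argument in `V[2^r]`. -/
theorem comp_right (hw : Weil S e j) {i r : ℕ} {x y : V} (hx : (2 : ℕ) ^ (r + i) • x = 0)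
    (hy : (2 : ℕ) ^ r • y = 0) : e (r + i) x y = e r ((2 : ℕ) ^ i • x) y := by
  have hy' : (2 : ℕ) ^ (r + i) • y = 0 := pow_smul_of_le (Nat.le_add_right r i) hy
  have hx' : (2 : ℕ) ^ r • ((2 : ℕ) ^ i • x) = 0 := by rw [← mul_smul, ← pow_add, hx]
  rw [hw.anti hx hy', hw.comp_pow i hy hx, ← hw.anti hx' hy]

/-- One more step does not change the value. -/
theorem bt_step (h : S.Ok) (hw : Weil S e j) {chi : G → ZMod 2} {i r k : ℕ} {t : G} {Q Q' Q1 : V}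
    (hQ : (2 : ℕ) ^ (i + r) • Q = 0) (h1 : (2 : ℕ) ^ r • Q1 = Q')
    (h2 : (2 : ℕ) ^ i • dl chi Q' t = 0) :
    ∃ Q2 : V, (2 : ℕ) ^ (r + k) • Q2 = Q' ∧
      e (i + (r + k)) Q (dl chi Q2 t) = e (i + r) Q (dl chi Q1 t) := by
  obtain ⟨Q2, hQ2⟩ := exists_pow_half h Q1 k
  have h3 : (2 : ℕ) ^ (r + k) • Q2 = Q' := by rw [pow_add, mul_smul, hQ2, h1]
  refine ⟨Q2, h3, ?_⟩
  have h4 : (2 : ℕ) ^ (i + r + k) • dl chi Q2 t = 0 := by
    rw [add_assoc]; exact lev_dl h3 h2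
  rw [← add_assoc, hw.comp_pow k hQ h4, ← dl_nsmul, hQ2]

theorem bt_indep (h : S.Ok) (hw : Weil S e j) {chi : G → ZMod 2} {i r r' : ℕ} {t : G}
    (ht : ∀ m : M, t • m = m) {Q Q' Q1 Q2 : V}
    (hQ : (2 : ℕ) ^ i • dl chi Q t = 0) (hQ' : (2 : ℕ) ^ i • dl chi Q' t = 0)
    (hr : (2 : ℕ) ^ (i + r) • Q = 0) (h1 : (2 : ℕ) ^ r • Q1 = Q')
    (hr' : (2 : ℕ) ^ (i + r') • Q = 0) (h2 : (2 : ℕ) ^ r' • Q2 = Q') :
    e (i + r) Q (dl chi Q1 t) = e (i + r') Q (dl chi Q2 t) := by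
  obtain ⟨Q3, h3, h3'⟩ := bt_step (k := r') h hw hr h1 hQ'
  obtain ⟨Q4, h4, h4'⟩ := bt_step (k := r) h hw hr' h2 hQ'
  rw [← h3', ← h4', add_comm r' r]
  rw [add_comm r' r] at h4
  generalize hR : r + r' = R at *
  have hx : (2 : ℕ) ^ R • (Q3 - Q4) = 0 := by rw [smul_sub, h3, h4, sub_self]
  have hQR : (2 : ℕ) ^ (i + R) • Q = 0 := pow_smul_of_le (by omega) hr
  have e1 : e (i + R) Q (dl chi Q3 t) - e (i + R) Q (dl chi Q4 t) =
      e (i + R) Q (dl chi (Q3 - Q4) t) := by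
    rw [dl_sub, hw.sub_right hQR (lev_dl h3 hQ') (lev_dl h4 hQ')]
  have hx' : (2 : ℕ) ^ R • dl chi (Q3 - Q4) t = 0 := by
    rw [← dl_nsmul, hx, dl_zero]
  have hQR' : (2 : ℕ) ^ R • ((2 : ℕ) ^ i • Q) = 0 := by
    rw [← mul_smul, ← pow_add, add_comm, hQR]
  have hfix : tw chi t ((2 : ℕ) ^ i • Q) = (2 : ℕ) ^ i • Q := by
    rw [← sub_eq_zero]
    change dl chi ((2 : ℕ) ^ i • Q) t = 0
    rw [dl_nsmul, hQ]
  rw [← sub_eq_zero, e1, add_comm i R, comp_right hw (by rw [add_comm, hQR]) hx']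
  have e2 : dl chi (Q3 - Q4) t = tw chi t (Q3 - Q4) - (Q3 - Q4) := rfl
  rw [e2, hw.sub_right hQR' (pow_smul_tw chi t hx) hx]
  have e3 : e R ((2 : ℕ) ^ i • Q) (tw chi t (Q3 - Q4)) = e R ((2 : ℕ) ^ i • Q) (Q3 - Q4) := by
    conv_lhs => rw [← hfix]
    rw [hw.tw_equiv chi R t hQR' hx, ht]
  rw [e3, sub_self]

/-- The value of `bt` by any admissible data. -/
theorem bt_eq (h : S.Ok) (hw : Weil S e j) {chi : G → ZMod 2} {i r : ℕ} {t : G}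
    (ht : ∀ m : M, t • m = m) {Q Q' Q1 : V}
    (hQ : (2 : ℕ) ^ i • dl chi Q t = 0) (hQ' : (2 : ℕ) ^ i • dl chi Q' t = 0)
    (hr : (2 : ℕ) ^ (i + r) • Q = 0) (h1 : (2 : ℕ) ^ r • Q1 = Q') :
    bt e chi i t Q Q' = e (i + r) Q (dl chi Q1 t) := by
  have hex : ∃ p : ℕ × V, (2 : ℕ) ^ (i + p.1) • Q = 0 ∧ (2 : ℕ) ^ p.1 • p.2 = Q' :=
    ⟨(r, Q1), hr, h1⟩
  rw [bt, dif_pos hex]
  exact bt_indep h hw ht hQ hQ' hex.choose_spec.1 hex.choose_spec.2 hr h1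

/-- Admissible data of any large depth. -/
theorem exists_dat (h : S.Ok) (Q Q' : V) : ∃ r0 : ℕ, ∀ r, r0 ≤ r → ∀ i,
    (2 : ℕ) ^ (i + r) • Q = 0 ∧ ∃ Q1 : V, (2 : ℕ) ^ r • Q1 = Q' := by
  obtain ⟨r0, hr0⟩ := h.tors Q
  exact ⟨r0, fun r hr i => ⟨pow_smul_of_le (by omega) hr0, exists_pow_half h Q' r⟩⟩

section bilin

variable (h : S.Ok) (hw : Weil S e j) {chi : G → ZMod 2} {i : ℕ} {t : G}
  (ht : ∀ m : M, t • m = m)

include h hw ht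

theorem bt_add_left {Q R Q' : V} (hQ : (2 : ℕ) ^ i • dl chi Q t = 0)
    (hR : (2 : ℕ) ^ i • dl chi R t = 0) (hQ' : (2 : ℕ) ^ i • dl chi Q' t = 0) :
    bt e chi i t (Q + R) Q' = bt e chi i t Q Q' + bt e chi i t R Q' := by
  obtain ⟨r1, hr1⟩ := h.tors Q
  obtain ⟨r2, hr2⟩ := h.tors R
  obtain ⟨Q1, hQ1⟩ := exists_pow_half h Q' (r1 + r2)
  have hq : (2 : ℕ) ^ (i + (r1 + r2)) • Q = 0 := pow_smul_of_le (by omega) hr1
  have hr : (2 : ℕ) ^ (i + (r1 + r2)) • R = 0 := pow_smul_of_le (by omega) hr2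
  have hQR : (2 : ℕ) ^ i • dl chi (Q + R) t = 0 := by rw [dl_add]; exact lev_add hQ hR
  rw [bt_eq h hw ht hQR hQ' (lev_add hq hr) hQ1, bt_eq h hw ht hQ hQ' hq hQ1,
    bt_eq h hw ht hR hQ' hr hQ1, hw.add_left _ _ _ _ hq hr (lev_dl hQ1 hQ')]

theorem bt_add_right {Q Q' R' : V} (hQ : (2 : ℕ) ^ i • dl chi Q t = 0)
    (hQ' : (2 : ℕ) ^ i • dl chi Q' t = 0) (hR' : (2 : ℕ) ^ i • dl chi R' t = 0) :
    bt e chi i t Q (Q' + R') = bt e chi i t Q Q' + bt e chi i t Q R' := by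
  obtain ⟨r, hr⟩ := h.tors Q
  obtain ⟨Q1, hQ1⟩ := exists_pow_half h Q' r
  obtain ⟨R1, hR1⟩ := exists_pow_half h R' r
  have hq : (2 : ℕ) ^ (i + r) • Q = 0 := pow_smul_of_le (by omega) hr
  have hQR : (2 : ℕ) ^ i • dl chi (Q' + R') t = 0 := by rw [dl_add]; exact lev_add hQ' hR'
  rw [bt_eq h hw ht hQ hQR hq (Q1 := Q1 + R1) (by rw [smul_add, hQ1, hR1]),
    bt_eq h hw ht hQ hQ' hq hQ1, bt_eq h hw ht hQ hR' hq hR1, dl_add,
    hw.add_right _ _ _ _ hq (lev_dl hQ1 hQ') (lev_dl hR1 hR')]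

theorem bt_zero_left {Q' : V} (hQ' : (2 : ℕ) ^ i • dl chi Q' t = 0) :
    bt e chi i t 0 Q' = 0 := by
  have h0 : (2 : ℕ) ^ i • dl chi (0 : V) t = 0 := by rw [dl_zero, smul_zero]
  have := bt_add_left h hw ht h0 h0 hQ'
  rw [add_zero] at this
  exact left_eq_add.mp this

theorem bt_zero_right {Q : V} (hQ : (2 : ℕ) ^ i • dl chi Q t = 0) :
    bt e chi i t Q 0 = 0 := by
  have h0 : (2 : ℕ) ^ i • dl chi (0 : V) t = 0 := by rw [dl_zero, smul_zero]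
  have := bt_add_right h hw ht hQ h0 h0
  rw [add_zero] at this
  exact left_eq_add.mp this

theorem bt_neg_left {Q Q' : V} (hQ : (2 : ℕ) ^ i • dl chi Q t = 0)
    (hQ' : (2 : ℕ) ^ i • dl chi Q' t = 0) :
    bt e chi i t (-Q) Q' = -bt e chi i t Q Q' := by
  have hn : (2 : ℕ) ^ i • dl chi (-Q) t = 0 := by rw [dl_neg]; exact lev_neg hQ
  have := bt_add_left h hw ht hQ hn hQ'
  rw [add_neg_cancel, bt_zero_left h hw ht hQ'] at this
  exact eq_neg_of_add_eq_zero_right this.symm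

theorem bt_neg_right {Q Q' : V} (hQ : (2 : ℕ) ^ i • dl chi Q t = 0)
    (hQ' : (2 : ℕ) ^ i • dl chi Q' t = 0) :
    bt e chi i t Q (-Q') = -bt e chi i t Q Q' := by
  have hn : (2 : ℕ) ^ i • dl chi (-Q') t = 0 := by rw [dl_neg]; exact lev_neg hQ'
  have := bt_add_right h hw ht hQ hQ' hn
  rw [add_neg_cancel, bt_zero_right h hw ht hQ] at this
  exact eq_neg_of_add_eq_zero_right this.symm

/-- Level rule: `bt (i+1) = 2 bt i` on the smaller group. -/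
theorem bt_succ {Q Q' : V} (hQ : (2 : ℕ) ^ i • dl chi Q t = 0)
    (hQ' : (2 : ℕ) ^ i • dl chi Q' t = 0) :
    bt e chi (i + 1) t Q Q' = (2 : ℕ) • bt e chi i t Q Q' := by
  obtain ⟨r, hr⟩ := h.tors Q
  obtain ⟨Q1, hQ1⟩ := exists_pow_half h Q' (r + 1)
  have hq : (2 : ℕ) ^ (i + (r + 1)) • Q = 0 := pow_smul_of_le (by omega) hr
  have h2 : (2 : ℕ) ^ r • ((2 : ℕ) • Q1) = Q' := by rw [← mul_smul, ← pow_succ, hQ1]
  have hq' : (2 : ℕ) ^ (i + 1 + r) • Q = 0 := pow_smul_of_le (by omega) hr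
  rw [bt_eq h hw ht (lev_succ hQ) (lev_succ hQ') hq' h2, bt_eq h hw ht hQ hQ' hq hQ1,
    dl_nsmul, two_nsmul, two_nsmul, show i + 1 + r = i + (r + 1) by omega,
    hw.add_right _ _ _ _ hq (lev_dl hQ1 hQ') (lev_dl hQ1 hQ')]

/-- `2^i ⟨2 Q^, N Q'^⟩ = 2^(i+1) ⟨Q^, N Q'^⟩`. -/
theorem bt_two_left {Q Q' : V} (hQ : (2 : ℕ) ^ (i + 1) • dl chi Q t = 0)
    (hQ' : (2 : ℕ) ^ i • dl chi Q' t = 0) :
    bt e chi i t ((2 : ℕ) • Q) Q' = bt e chi (i + 1) t Q Q' := by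
  obtain ⟨r, hr⟩ := h.tors Q
  obtain ⟨Q1, hQ1⟩ := exists_pow_half h Q' r
  have hq : (2 : ℕ) ^ (i + 1 + r) • Q = 0 := pow_smul_of_le (by omega) hr
  have hq' : (2 : ℕ) ^ (i + r) • ((2 : ℕ) • Q) = 0 := by
    rw [← mul_smul, ← pow_succ, show i + r + 1 = i + 1 + r by omega, hq]
  have hQ2 : (2 : ℕ) ^ i • dl chi ((2 : ℕ) • Q) t = 0 := by
    rw [dl_nsmul, ← mul_smul, ← pow_succ, hQ]
  rw [bt_eq h hw ht hQ2 hQ' hq' hQ1, bt_eq h hw ht hQ (lev_succ hQ') hq hQ1,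
    show i + 1 + r = (i + r) + 1 by omega,
    comp_right hw (by rw [show i + r + 1 = i + 1 + r by omega, hq]) (lev_dl hQ1 hQ'), pow_one]

/-- `2^i ⟨Q^, 2 N Q'^⟩ = 2^(i+1) ⟨Q^, N Q'^⟩`. -/
theorem bt_two_right {Q Q' : V} (hQ : (2 : ℕ) ^ i • dl chi Q t = 0)
    (hQ' : (2 : ℕ) ^ (i + 1) • dl chi Q' t = 0) :
    bt e chi i t Q ((2 : ℕ) • Q') = bt e chi (i + 1) t Q Q' := by
  obtain ⟨r, hr⟩ := h.tors Q
  obtain ⟨Q1, hQ1⟩ := exists_pow_half h Q' r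
  have hq : (2 : ℕ) ^ (i + 1 + r) • Q = 0 := pow_smul_of_le (by omega) hr
  have hq' : (2 : ℕ) ^ (i + r) • Q = 0 := pow_smul_of_le (by omega) hr
  have hQ2 : (2 : ℕ) ^ i • dl chi ((2 : ℕ) • Q') t = 0 := by
    rw [dl_nsmul, ← mul_smul, ← pow_succ, hQ']
  have h2 : (2 : ℕ) ^ r • ((2 : ℕ) • Q1) = (2 : ℕ) • Q' := by rw [smul_comm, hQ1]
  rw [bt_eq h hw ht hQ hQ2 hq' h2, bt_eq h hw ht (lev_succ hQ) hQ' hq hQ1,
    show i + 1 + r = (i + r) + 1 by omega,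
    hw.comp _ _ _ hq' (by rw [show i + r + 1 = i + 1 + r by omega]; exact lev_dl hQ1 hQ'),
    dl_nsmul]

/-- `2^i ⟨2 Q^, 2 N Q'^⟩ = 2 (2^(i+1) ⟨Q^, N Q'^⟩)`. -/
theorem bt_two_two {Q Q' : V} (hQ : (2 : ℕ) ^ (i + 1) • dl chi Q t = 0)
    (hQ' : (2 : ℕ) ^ (i + 1) • dl chi Q' t = 0) :
    bt e chi i t ((2 : ℕ) • Q) ((2 : ℕ) • Q') = (2 : ℕ) • bt e chi (i + 1) t Q Q' := by
  have hQ2 : (2 : ℕ) ^ i • dl chi ((2 : ℕ) • Q) t = 0 := by
    rw [dl_nsmul, ← mul_smul, ← pow_succ, hQ]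
  rw [bt_two_right h hw ht hQ2 hQ', two_nsmul, two_nsmul, bt_add_left h hw ht hQ hQ hQ']

/-- Symmetry: `⟨Q^, N R^⟩ = ⟨R^, N Q^⟩ + ⟨N R^, N Q^⟩`. -/
theorem bt_symm {Q R : V} (hQ : (2 : ℕ) ^ i • dl chi Q t = 0)
    (hR : (2 : ℕ) ^ i • dl chi R t = 0) :
    bt e chi i t Q R = bt e chi i t R Q + e i (dl chi R t) (dl chi Q t) := by
  obtain ⟨r1, hr1⟩ := h.tors Q
  obtain ⟨r2, hr2⟩ := h.tors R
  generalize hr : r1 + r2 = r
  have hq : (2 : ℕ) ^ (i + r) • Q = 0 := pow_smul_of_le (by omega) hr1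
  have hqr : (2 : ℕ) ^ (i + r) • R = 0 := pow_smul_of_le (by omega) hr2
  obtain ⟨Q1, hQ1⟩ := exists_pow_half h Q r
  obtain ⟨R1, hR1⟩ := exists_pow_half h R r
  -- everything at the level `m = i + 2 r`
  have hR1' : (2 : ℕ) ^ (i + r + r) • R1 = 0 := by
    rw [pow_add, mul_smul, hR1, hqr]
  have hQ1' : (2 : ℕ) ^ (i + r + r) • Q1 = 0 := by
    rw [pow_add, mul_smul, hQ1, hq]
  have hQm : (2 : ℕ) ^ (i + r + r) • Q = 0 := pow_smul_of_le (by omega) hq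
  have hRm : (2 : ℕ) ^ (i + r + r) • R = 0 := pow_smul_of_le (by omega) hqr
  have hdQ1 : (2 : ℕ) ^ (i + r) • dl chi Q1 t = 0 := lev_dl hQ1 hQ
  have hdR1 : (2 : ℕ) ^ (i + r) • dl chi R1 t = 0 := lev_dl hR1 hR
  rw [bt_eq h hw ht hQ hR hq hR1, bt_eq h hw ht hR hQ hqr hQ1]
  -- rewrite `e (i+r) Q (dl R1)` with `Q = 2^r Q1`
  have e1 : e (i + r) Q (dl chi R1 t) = e (i + r + r) Q1 (dl chi R1 t) := by
    rw [comp_right hw hQ1' hdR1, hQ1]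
  have e2 : e (i + r) R (dl chi Q1 t) = e (i + r + r) R1 (dl chi Q1 t) := by
    rw [comp_right hw hR1' hdQ1, hR1]
  have e3 : e i (dl chi R t) (dl chi Q t) = e (i + r + r) (dl chi R1 t) (dl chi Q1 t) := by
    rw [hw.comp_pow r hdR1 (pow_smul_of_le (by omega) hdQ1), ← dl_nsmul, hQ1,
      comp_right hw (x := dl chi R1 t) hdR1 hQ, ← dl_nsmul, hR1]
  have htw : e (i + r + r) (tw chi t Q1) (tw chi t R1) = e (i + r + r) Q1 R1 := by
    rw [hw.tw_equiv chi _ t hQ1' hR1', ht]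
  rw [e1, e2, e3]
  generalize hm : i + r + r = m at *
  have hdQ1m : (2 : ℕ) ^ m • dl chi Q1 t = 0 := pow_smul_of_le (by omega) hdQ1
  have hdR1m : (2 : ℕ) ^ m • dl chi R1 t = 0 := pow_smul_of_le (by omega) hdR1
  have f1 : tw chi t Q1 = dl chi Q1 t + Q1 := by rw [dl]; abel
  have f2 : tw chi t R1 = dl chi R1 t + R1 := by rw [dl]; abel
  rw [f1, f2, hw.add_left _ _ _ _ hdQ1m hQ1' (lev_add hdR1m hR1'),
    hw.add_right _ _ _ _ hdQ1m hdR1m hR1', hw.add_right _ _ _ _ hQ1' hdR1m hR1'] at htw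
  have f3 : e m (dl chi Q1 t) (dl chi R1 t) = -e m (dl chi R1 t) (dl chi Q1 t) :=
    hw.anti hdQ1m hdR1m
  have f4 : e m (dl chi Q1 t) R1 = -e m R1 (dl chi Q1 t) := hw.anti hdQ1m hR1'
  rw [f3, f4] at htw
  have f5 : e m Q1 (dl chi R1 t) - e m R1 (dl chi Q1 t) - e m (dl chi R1 t) (dl chi Q1 t) = 0 := by
    have : -e m (dl chi R1 t) (dl chi Q1 t) + -e m R1 (dl chi Q1 t) +
        (e m Q1 (dl chi R1 t) + e m Q1 R1) - e m Q1 R1 = 0 := by rw [htw, sub_self]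
    rw [← this]
    abel
  rw [sub_sub, sub_eq_zero] at f5
  exact f5

/-- `t = 1` on `V` (twisted): the form vanishes. -/
theorem bt_triv {Q Q' : V} (hV : ∀ X : V, tw chi t X = X) : bt e chi i t Q Q' = 0 := by
  have hd : ∀ X : V, dl chi X t = 0 := fun X => by rw [dl, hV, sub_self]
  obtain ⟨r, hr⟩ := h.tors Q
  obtain ⟨Q1, hQ1⟩ := exists_pow_half h Q' r
  have hq : (2 : ℕ) ^ (i + r) • Q = 0 := pow_smul_of_le (by omega) hr
  rw [bt_eq h hw ht (by rw [hd, smul_zero]) (by rw [hd, smul_zero]) hq hQ1, hd, hw.zero_right hq]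

/-- `t = -1` on `V` (twisted): `bt Q Q = 0`. -/
theorem bt_neg_one {Q : V} (hV : ∀ X : V, tw chi t X = -X)
    (hQ : (2 : ℕ) ^ i • dl chi Q t = 0) : bt e chi i t Q Q = 0 := by
  have hd : ∀ X : V, dl chi X t = -((2 : ℕ) • X) := fun X => by
    rw [dl, hV, two_nsmul]; abel
  obtain ⟨r, hr⟩ := h.tors Q
  obtain ⟨Q1, hQ1⟩ := exists_pow_half h Q (r + 1)
  have hq : (2 : ℕ) ^ (i + (r + 1)) • Q = 0 := pow_smul_of_le (by omega) hr
  have h2 : (2 : ℕ) ^ (i + (r + 1)) • ((2 : ℕ) • Q1) = 0 := by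
    have := lev_dl hQ1 hQ
    rw [hd] at this
    rw [← neg_neg ((2 : ℕ) • Q1)]
    exact lev_neg this
  rw [bt_eq h hw ht hQ hQ hq hQ1, hd, hw.neg_right hq h2]
  have h3 : Q = (2 : ℕ) ^ r • ((2 : ℕ) • Q1) := by rw [← mul_smul, ← pow_succ, hQ1]
  have h4 : ∀ (n : ℕ) (x : V), (2 : ℕ) ^ (i + (r + 1)) • x = 0 →
      e (i + (r + 1)) (n • x) x = 0 := by
    intro n x hx
    induction n with
    | zero => rw [zero_smul, hw.zero_left hx]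
    | succ n ih =>
      rw [succ_nsmul, hw.add_left _ _ _ _ (by rw [smul_comm, hx, smul_zero]) hx hx, ih,
        hw.alt _ _ hx, add_zero]
  rw [h3, h4 _ _ h2, neg_zero]

/-- Points of order two: the form is `e_i (R, N Q)`. -/
theorem bt_iota_left {R Q : V} (hi : 1 ≤ i) (hR : (2 : ℕ) • R = 0)
    (hQ : (2 : ℕ) ^ i • dl chi Q t = 0) : bt e chi i t R Q = e i R (dl chi Q t) := by
  have hR' : (2 : ℕ) ^ i • R = 0 := pow_smul_of_le hi (by rw [pow_one]; exact hR)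
  have hdR : (2 : ℕ) ^ i • dl chi R t = 0 := by rw [← dl_nsmul, hR', dl_zero]
  have := bt_eq h hw ht hdR hQ (r := 0) (Q1 := Q) (by rw [add_zero, hR']) (by
    rw [pow_zero, one_smul])
  rwa [add_zero] at this

theorem bt_iota_right {R Q : V} (hi : 1 ≤ i) (hR : (2 : ℕ) • R = 0)
    (hQ : (2 : ℕ) ^ i • dl chi Q t = 0) :
    bt e chi i t Q R = e i (tw chi t R) (dl chi Q t) := by
  have hR' : (2 : ℕ) ^ i • R = 0 := pow_smul_of_le hi (by rw [pow_one]; exact hR)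
  have hdR : (2 : ℕ) ^ i • dl chi R t = 0 := by rw [← dl_nsmul, hR', dl_zero]
  have e2 : tw chi t R = R + dl chi R t := by rw [dl]; abel
  rw [bt_symm h hw ht hQ hdR, bt_iota_left h hw ht hi hR hQ, e2,
    hw.add_left _ _ _ _ hR' hdR hQ]

/-- The change of `bt Q Q` by a point `R` of order two. -/
theorem bt_add_iota' {R Q : V} (hi : 1 ≤ i) (hR : (2 : ℕ) • R = 0)
    (hQ : (2 : ℕ) ^ i • dl chi Q t = 0) :
    bt e chi i t (Q + R) (Q + R) =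
      bt e chi i t Q Q + e i (dl chi R t) (dl chi Q t) + e i R (dl chi R t) := by
  have hR' : (2 : ℕ) ^ i • R = 0 := pow_smul_of_le hi (by rw [pow_one]; exact hR)
  have hdR : (2 : ℕ) ^ i • dl chi R t = 0 := by rw [← dl_nsmul, hR', dl_zero]
  have hQR : (2 : ℕ) ^ i • dl chi (Q + R) t = 0 := by rw [dl_add]; exact lev_add hQ hdR
  have e2 : tw chi t R = R + dl chi R t := by rw [dl]; abel
  have e3 : e i R (dl chi Q t) + e i R (dl chi Q t) = 0 := by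
    rw [← hw.add_left _ _ _ _ hR' hR' hQ, ← two_nsmul, hR, hw.zero_left hQ]
  have e4 : e i (R + dl chi R t) (dl chi Q t) =
      e i R (dl chi Q t) + e i (dl chi R t) (dl chi Q t) := hw.add_left _ _ _ _ hR' hdR hQ
  rw [bt_add_left h hw ht hQ hdR hQR, bt_add_right h hw ht hQ hQ hdR,
    bt_add_right h hw ht hdR hQ hdR, bt_iota_left h hw ht hi hR hQ,
    bt_iota_right h hw ht hi hR hQ, bt_iota_left h hw ht hi hR hdR, e2, e4]
  have e5 : ∀ a b c d : M, c + c = 0 → a + (c + b) + (c + d) = a + b + d := by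
    intro a b c d hc
    calc a + (c + b) + (c + d) = a + b + d + (c + c) := by abel
      _ = _ := by rw [hc, add_zero]
  exact e5 _ _ _ _ e3

/-- Changing `Q` by a point of order two fixed by `t` does not change `bt Q Q`. -/
theorem bt_add_iota {R Q : V} (hi : 1 ≤ i) (hR : (2 : ℕ) • R = 0) (hdR : dl chi R t = 0)
    (hQ : (2 : ℕ) ^ i • dl chi Q t = 0) :
    bt e chi i t (Q + R) (Q + R) = bt e chi i t Q Q := by
  have hR' : (2 : ℕ) ^ i • R = 0 := pow_smul_of_le hi (by rw [pow_one]; exact hR)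
  rw [bt_add_iota' h hw ht hi hR hQ, hdR, hw.zero_left hQ, hw.zero_right hR', add_zero, add_zero]

/-- For `i ≥ 2` the change by a point `R` of order two is `e_i (t R - R, N Q)`. -/
theorem bt_add_iota2 {R Q : V} (hi : 2 ≤ i) (hR : (2 : ℕ) • R = 0)
    (hQ : (2 : ℕ) ^ i • dl chi Q t = 0) :
    bt e chi i t (Q + R) (Q + R) = bt e chi i t Q Q + e i (dl chi R t) (dl chi Q t) := by
  have hR' : (2 : ℕ) ^ i • R = 0 := pow_smul_of_le (show 1 ≤ i by omega) (by rw [pow_one]; exact hR)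
  rw [bt_add_iota' h hw ht (by omega) hR hQ]
  have hdR2 : (2 : ℕ) • dl chi R t = 0 := by rw [← dl_nsmul, hR, dl_zero]
  obtain ⟨k, rfl⟩ : ∃ k, i = 1 + (k + 1) := ⟨i - 2, by omega⟩
  have e1 : e (1 + (k + 1)) R (dl chi R t) = 0 := by
    rw [hw.comp_pow (k + 1) (by rw [pow_one]; exact hR)
      (pow_smul_of_le (show 1 ≤ 1 + (k + 1) by omega) (by rw [pow_one]; exact hdR2)), pow_succ,
      mul_smul, hdR2, smul_zero, hw.zero_right (by rw [pow_one]; exact hR)]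
  rw [e1, add_zero]

/-- Torsion elements: `σ_{Q,z}(t) = e_i (z + t z, N Q)` for `z` of level `i`. -/
theorem bt_tors {Q z : V} (hz : (2 : ℕ) ^ i • z = 0)
    (hQ : (2 : ℕ) ^ i • dl chi Q t = 0) :
    bt e chi i t Q z + bt e chi i t z Q = e i (z + tw chi t z) (dl chi Q t) := by
  have hdz : (2 : ℕ) ^ i • dl chi z t = 0 := by rw [← dl_nsmul, hz, dl_zero]
  have e1 := bt_eq h hw ht hdz hQ (r := 0) (Q1 := Q) (by rw [add_zero, hz]) (by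
    rw [pow_zero, one_smul])
  rw [add_zero] at e1
  have e2 : z + tw chi t z = z + (z + dl chi z t) := by rw [dl]; abel
  rw [bt_symm h hw ht hQ hdz, e1, e2, hw.add_left _ _ _ _ hz (lev_add hz hdz) hQ,
    hw.add_left _ _ _ _ hz hdz hQ]
  abel

end bilin

end

end Pool.Agent.SmNH
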